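import Pool.Agent.H683.CV.Main

/-!
# The Budgeted Coloring Problem is fixed-parameter tractable in the cluster vertex deletion number

Instances are pairs `(G, B)`: a graph, given by an adjacency matrix `M` (vertex set
`Fin M.length`), and the list `B = [b_0, …, b_{c-1}]` of the budgets of the `c` colors (in binary).
`Bcp (M, B)`: there is a proper coloring with the colors `0, …, c - 1` that uses color `i` at most
`b_i` times. The parameter is the least size of a set `S` of vertices such that `G - S` is a cluster
graph. Neither the number of colors nor the number of cliques is a parameter.

Proof. The vertices of `S` are colored with `p ≤ |S|` classes (guessed). If the budgets
`x_0, …, x_{p-1}` of the colors of the classes are known, the coloring exists iff Hall's condition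
holds, which amounts to one inequality for each number `t` of cliques and each set `A` of
classes: a sum of `(x_j - t)^+` over `A` is at least a constant plus a sum of `min (x_j) t` over the
complement. The inequalities are not tractable for arbitrary sums, but the differences of budgets
that are close to each other can be guessed as well: after this, the classes are arranged in
clusters with rigid distances, different clusters being more than `|S|` apart. In a violated
inequality, the cluster of the largest `x_j` with `x_j < t + s_j`, `j ∈ A` (`s_j` the size of class
`j`) must be raised. So the least solution (if any) is found by raising clusters one by one, and
the guess has a size that depends only on `|S|`; `S` itself is found by a 3-approximation.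
-/

set_option autoImplicit false

namespace Pool.Agent.Results.MP_572c27_lc.ClusterDeletionTractable

open Pool.Agent.NPC Pool.Agent.H633R2 Pool.Agent.H683.CV

/-- **The Budgeted Coloring Problem, parameterized by the cluster vertex deletion number alone, is
fixed-parameter tractable**: some Turing machine decides it in time `h (cvd G) * q (|input|)` with
`h` computable and `q` a polynomial. -/
theorem result : IsFpt (fun x : List (List Bool) × List ℕ => cvd x.1) Bcp :=
  Pool.Agent.NPC.H683CV.main

end Pool.Agent.Results.MP_572c27_lc.ClusterDeletionTractable
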